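import Mathlib
import Pool.Agent.Work.MP_db9399_sc.Interface
import Pool.Agent.Work.MP_db9399_dn.MLA
import Pool.Agent.Work.MP_db9399_dn.MLB

/-!
# MP_db9399, THEOREM SC, block TUT (helper43): one matching
-/

set_option autoImplicit false

namespace Pool.Agent.Work.MP_db9399_sc.helper43

open Finset Classical
open Pool.Agent.Work.MP_db9399_all (nb)
open Pool.Agent.Work.MP_db9399_dn (NB IsMat)
open Pool.Agent.Work.MP_db9399_dn.ML (tutte_fam dcount)
open Pool.Agent.Work.MP_db9399_sc

universe u

/-- the numbers -/
theorem numbersT (η p1 p2 s : ℝ) (hη : 0 < η) (h1 : (1 + η) * p1 ≤ s) (hp1 : 0 ≤ p1)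
    (h2 : p1 * (1 - η / 8) + 7 / 5 * p2 ≤ s) : p1 + p2 ≤ s := by
  nlinarith [mul_nonneg hp1 hη.le]

theorem stmt_TUT : Stmt_TUT.{u} := by
  intro η hη hη1
  refine ⟨17, ?_⟩
  intro V _ F d U L O hd0 hLU hdeg hL hNB hC
  have hd17 : (17 : ℝ) ≤ d := by exact_mod_cast hd0
  have key : ∃ M : SimpleGraph V, M ≤ F ∧ IsMat M ∧ (∀ v w, M.Adj v w → v ∈ U) ∧
      ∀ v ∈ L \ O, (nb M v).Nonempty := by
    by_contra hno
    obtain ⟨S, XX, hSU, hcard, hXX, hdisj⟩ :=
      tutte_fam F U (L \ O) (sdiff_subset.trans hLU) hno
    have hXL : ∀ X ∈ XX, X ⊆ L := fun X hX => (hXX X hX).1.trans sdiff_subset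
    -- lower bound for the degree into `S`
    have hlow : ∀ X ∈ XX, ∀ x ∈ X, (1 - η / 8) * d ≤ ((nb F x ∩ S).card : ℝ) + X.card - 1 := by
      intro X hX x hx
      obtain ⟨_, _, _, hN⟩ := hXX X hX
      have h1 := hL x (hXL X hX hx)
      have h2 : (nb F x ∩ U).card ≤ (nb F x ∩ S).card + (X.erase x).card := by
        refine le_trans (Finset.card_le_card ?_) (Finset.card_union_le _ _)
        intro y hy
        have h3 := hN x hx hy
        rw [mem_inter] at hy
        rw [mem_union] at h3 ⊢
        rw [mem_inter, mem_erase]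
        rcases h3 with h3 | h3
        · right
          refine ⟨?_, h3⟩
          rintro rfl
          exact F.loopless.irrefl _ (Pool.Agent.Work.MP_db9399_dn.ML.mem_nb.mp hy.1)
        · exact Or.inl ⟨hy.1, h3⟩
      rw [Finset.card_erase_of_mem hx] at h2
      have h4 : 1 ≤ X.card := Finset.card_pos.mpr ⟨x, hx⟩
      have h5 : (nb F x ∩ U).card + 1 ≤ (nb F x ∩ S).card + X.card := by omega
      have h6 : ((nb F x ∩ U).card : ℝ) + 1 ≤ (nb F x ∩ S).card + X.card := by exact_mod_cast h5
      linarith
    obtain ⟨X1, hX1⟩ : ∃ X1 : Finset (Finset V), X1 = XX.filter (fun X => X.card = 1) := ⟨_, rfl⟩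
    obtain ⟨X2, hX2⟩ : ∃ X2 : Finset (Finset V),
      X2 = XX.filter (fun X => ¬ X.card = 1) := ⟨_, rfl⟩
    have hsum : XX.card = X1.card + X2.card := by
      rw [hX1, hX2]
      exact (Finset.card_filter_add_card_filter_not (s := XX) (fun X => X.card = 1)).symm
    -- singletons
    have hs1 : (1 + η) * (X1.card : ℝ) ≤ S.card := by
      have h1 : (X1.biUnion id).card = X1.card := by
        rw [Finset.card_biUnion]
        · rw [Finset.card_eq_sum_ones]
          apply Finset.sum_congr rfl
          intro X hX
          rw [hX1, mem_filter] at hX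
          exact hX.2
        · intro X hX Y hY hne
          rw [Finset.mem_coe, hX1, mem_filter] at hX hY
          exact hdisj X hX.1 Y hY.1 hne
      have h2 := hNB S (X1.biUnion id) hSU ?_ ?_ ?_
      · rw [h1] at h2
        exact h2
      · intro x hx
        rw [mem_biUnion] at hx
        obtain ⟨X, hX, hxX⟩ := hx
        rw [hX1, mem_filter] at hX
        exact hXL X hX.1 hxX
      · rw [Finset.disjoint_right]
        intro x hx
        rw [mem_biUnion] at hx
        obtain ⟨X, hX, hxX⟩ := hx
        rw [hX1, mem_filter] at hX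
        exact Finset.disjoint_left.mp (hXX X hX.1).2.2.1 hxX
      · intro x hx y hy
        rw [mem_biUnion] at hx
        obtain ⟨X, hX, hxX⟩ := hx
        rw [hX1, mem_filter] at hX
        have h3 := (hXX X hX.1).2.2.2 x hxX hy
        rw [mem_union] at h3
        rcases h3 with h3 | h3
        · exfalso
          have h4 := Finset.card_le_one.mp hX.2.le x hxX y h3
          rw [mem_inter, Pool.Agent.Work.MP_db9399_dn.ML.mem_nb, h4] at hy
          exact F.loopless.irrefl _ hy.1
        · exact h3
    -- edges into S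
    have hs2 : (X1.card : ℝ) * (1 - η / 8) + 7 / 5 * X2.card ≤ S.card := by
      have h1 : (∑ X ∈ X1 ∪ X2, (∑ x ∈ X, (nb F x ∩ S).card)) ≤ d * S.card := by
        have hsub : X1 ∪ X2 ⊆ XX := by
          rw [hX1, hX2]
          exact Finset.union_subset (Finset.filter_subset _ _) (Finset.filter_subset _ _)
        have h1 : (∑ X ∈ X1 ∪ X2, (∑ x ∈ X, (nb F x ∩ S).card)) =
            ∑ x ∈ (X1 ∪ X2).biUnion id, (nb F x ∩ S).card := by
          rw [Finset.sum_biUnion]
          · rfl
          · intro X hX Y hY hne
            exact hdisj X (hsub hX) Y (hsub hY) hne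
        rw [h1]
        exact dcount F d S _ hdeg
      rw [Finset.sum_union] at h1
      · have h2 : (X1.card : ℝ) * ((1 - η / 8) * d) ≤
            ∑ X ∈ X1, (∑ x ∈ X, ((nb F x ∩ S).card : ℝ)) := by
          rw [← nsmul_eq_mul, ← Finset.sum_const]
          apply Finset.sum_le_sum
          intro X hX
          rw [hX1, mem_filter] at hX
          obtain ⟨x, hx⟩ := Finset.card_pos.mp (by omega : 0 < X.card)
          have h3 := hlow X hX.1 x hx
          have h4 : ((nb F x ∩ S).card : ℝ) ≤ ∑ x ∈ X, ((nb F x ∩ S).card : ℝ) :=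
            Finset.single_le_sum (f := fun x => ((nb F x ∩ S).card : ℝ))
              (fun _ _ => Nat.cast_nonneg _) hx
          rw [hX.2] at h3
          push_cast at h3
          linarith
        have h3 : (X2.card : ℝ) * (7 / 5 * d) ≤
            ∑ X ∈ X2, (∑ x ∈ X, ((nb F x ∩ S).card : ℝ)) := by
          rw [← nsmul_eq_mul, ← Finset.sum_const]
          apply Finset.sum_le_sum
          intro X hX
          rw [hX2, mem_filter] at hX
          rcases lt_or_ge (X.card : ℝ) (d / 2) with hlt | hge
          · have h4 : (X.card : ℝ) * ((1 - η / 8) * d - X.card + 1) ≤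
                ∑ x ∈ X, ((nb F x ∩ S).card : ℝ) := by
              rw [← nsmul_eq_mul, ← Finset.sum_const]
              apply Finset.sum_le_sum
              intro x hx
              have := hlow X hX.1 x hx
              linarith
            refine le_trans ?_ h4
            obtain ⟨l, hl⟩ := (hXX X hX.1).2.1
            have h5 : (3 : ℝ) ≤ X.card := by
              exact_mod_cast (by omega : 3 ≤ X.card)
            have h7 : (99 / 100 : ℝ) * d ≤ (1 - η / 8) * d :=
              mul_le_mul_of_nonneg_right (by linarith) (Nat.cast_nonneg _)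
            have h6 : (49 / 100 : ℝ) * d ≤ (1 - η / 8) * d - X.card + 1 := by
              linarith
            calc (7 / 5 : ℝ) * d ≤ 3 * (49 / 100 * d) := by linarith
              _ ≤ X.card * ((1 - η / 8) * d - X.card + 1) :=
                  mul_le_mul h5 h6 (by positivity) (by positivity)
          · by_contra hlt
            rw [not_le] at hlt
            have h4 : cut F U X ≤ ∑ x ∈ X, (nb F x ∩ S).card := by
              unfold cut
              apply Finset.sum_le_sum
              intro x hx
              apply Finset.card_le_card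
              intro y hy
              rw [mem_inter, mem_sdiff] at hy
              have h6 := (hXX X hX.1).2.2.2 x hx (mem_inter.mpr ⟨hy.1, hy.2.1⟩)
              rw [mem_union] at h6
              rcases h6 with h6 | h6
              · exact absurd h6 hy.2.2
              · exact mem_inter.mpr ⟨hy.1, h6⟩
            have h5 : ((cut F U X : ℕ) : ℝ) ≤ ∑ x ∈ X, ((nb F x ∩ S).card : ℝ) := by
              exact_mod_cast h4
            have hcr : Crit F d U L X := by
              refine ⟨hXL X hX.1, ?_, ?_⟩
              · have h6 : (d : ℝ) ≤ 2 * X.card := by linarith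
                exact_mod_cast h6
              · have h6 : (5 : ℝ) * (cut F U X : ℕ) < 7 * d := by linarith
                exact_mod_cast h6
            obtain ⟨v, hv, hvO⟩ := hC X hcr
            exact (mem_sdiff.mp ((hXX X hX.1).1 hv)).2 hvO
        have h4 : ((∑ X ∈ X1, (∑ x ∈ X, (nb F x ∩ S).card) : ℕ) : ℝ) +
            ((∑ X ∈ X2, (∑ x ∈ X, (nb F x ∩ S).card) : ℕ) : ℝ) ≤ d * S.card := by
          exact_mod_cast h1
        push_cast at h4
        have h5 : ((X1.card : ℝ) * (1 - η / 8) + 7 / 5 * X2.card) * d ≤ (S.card : ℝ) * d := by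
          linarith
        exact le_of_mul_le_mul_right h5 (by linarith)
      · rw [Finset.disjoint_left]
        intro X h3 h4
        rw [hX1, mem_filter] at h3
        rw [hX2, mem_filter] at h4
        exact h4.2 h3.2
    have hp12 := numbersT η X1.card X2.card S.card hη hs1 (Nat.cast_nonneg _) hs2
    have h1 : X1.card + X2.card ≤ S.card := by exact_mod_cast hp12
    omega
  obtain ⟨M, hM1, hM2, hM3, hM4⟩ := key
  exact ⟨M, hM1, hM2, hM3, fun v hv hvO => hM4 v (mem_sdiff.mpr ⟨hv, hvO⟩)⟩

end Pool.Agent.Work.MP_db9399_sc.helper43
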