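import Mathlib
import Pool.Agent.Work.MP_db9399_sc.Interface

/-!
# MP_db9399, THEOREM SC, block FULL (helper43): all rounds together
-/

set_option autoImplicit false

namespace Pool.Agent.Work.MP_db9399_sc.helper43

open Finset Classical
open Pool.Agent.Work.MP_db9399_all (nb)
open Pool.Agent.Work.MP_db9399_dn (NB IsMat)
open Pool.Agent.Work.MP_db9399_sc

universe u

section basics
variable {V : Type u} [Fintype V]

theorem mem_nb {G : SimpleGraph V} {v w : V} : w ∈ nb G v ↔ G.Adj v w := by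
  simp [nb]

/-- the vertices covered by `M` -/
noncomputable def vs (M : SimpleGraph V) : Finset V := univ.filter (fun v => (nb M v).Nonempty)

theorem mem_vs {M : SimpleGraph V} {v : V} : v ∈ vs M ↔ (nb M v).Nonempty := by
  simp [vs]

theorem vs_of_adj {M : SimpleGraph V} {v w : V} (h : M.Adj v w) : v ∈ vs M :=
  mem_vs.mpr ⟨w, mem_nb.mpr h⟩

/-- union of the graphs `K b` -/
def un {k : ℕ} (K : Fin k → SimpleGraph V) : SimpleGraph V where
  Adj v w := ∃ b, (K b).Adj v w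
  symm := ⟨fun _ _ ⟨b, h⟩ => ⟨b, h.symm⟩⟩
  loopless := ⟨fun _ ⟨_, h⟩ => h.ne rfl⟩

theorem un_adj {k : ℕ} {K : Fin k → SimpleGraph V} {b : Fin k} {v w : V} (h : (K b).Adj v w) :
    (un K).Adj v w := ⟨b, h⟩

theorem nb_un_card {k : ℕ} (K : Fin k → SimpleGraph V) (I : Finset (Fin k))
    (hm : ∀ b, IsMat (K b)) (hI : ∀ b v w, (K b).Adj v w → b ∈ I) (v : V) :
    (nb (un K) v).card ≤ I.card := by
  have h1 : nb (un K) v ⊆ I.biUnion (fun b => nb (K b) v) := by
    intro w hw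
    obtain ⟨b, hb⟩ := mem_nb.mp hw
    exact mem_biUnion.mpr ⟨b, hI b v w hb, mem_nb.mpr hb⟩
  calc (nb (un K) v).card ≤ _ := card_le_card h1
    _ ≤ I.card * 1 := card_biUnion_le_card_mul _ _ _ (fun b _ => hm b v)
    _ = I.card := by ring

theorem nb_sup (A B : SimpleGraph V) (v : V) : nb (A ⊔ B) v = nb A v ∪ nb B v := by
  ext w
  simp only [mem_union, mem_nb, SimpleGraph.sup_adj]

theorem isMat_sup {A B : SimpleGraph V} (hA : IsMat A) (hB : IsMat B)
    (h : ∀ v, (nb A v).Nonempty → nb B v = ∅) : IsMat (A ⊔ B) := by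
  intro v
  rw [nb_sup]
  by_cases hv : (nb A v).Nonempty
  · rw [h v hv, union_empty]
    exact hA v
  · rw [not_nonempty_iff_eq_empty.mp hv, empty_union]
    exact hB v

end basics

section full
variable {V : Type u} [Fintype V] {G : SimpleGraph V} {d k : ℕ} {η α : ℝ} {UH : Finset V}
  {c0 : V → Fin k} {EH : SimpleGraph V} {t0 : V → V → Fin k}

/-- the new vertex colouring -/
noncomputable def c1 (Z : Pre G d k η α UH c0 EH t0)
    (R : Rnd G d k (Hv η G d) Z.Q (un Z.K) (fun b => vs (Z.K b))) (v : V) : Fin k :=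
  if h : ∃ b ∈ Z.Q, v ∈ R.O b ∧ nb (R.M b) v = ∅ then h.choose else Z.c v

variable (Z : Pre G d k η α UH c0 EH t0)
    (R : Rnd G d k (Hv η G d) Z.Q (un Z.K) (fun b => vs (Z.K b)))

theorem c1_or (v : V) : (c1 Z R v = Z.c v ∧ ¬ ∃ b ∈ Z.Q, v ∈ R.O b ∧ nb (R.M b) v = ∅) ∨
    (c1 Z R v ∈ Z.Q ∧ v ∈ R.O (c1 Z R v) ∧ nb (R.M (c1 Z R v)) v = ∅) := by
  by_cases h : ∃ b ∈ Z.Q, v ∈ R.O b ∧ nb (R.M b) v = ∅
  · right
    have h1 : c1 Z R v = h.choose := by unfold c1; rw [dif_pos h]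
    rw [h1]
    exact h.choose_spec
  · left
    refine ⟨?_, h⟩
    unfold c1
    rw [dif_neg h]

theorem not_PQ {b : Fin k} (h1 : b ∈ Z.P) (h2 : b ∈ Z.Q) : False :=
  (disjoint_left.mp Z.PQ) h1 h2

theorem c1_eq {b : Fin k} (hb : b ∈ Z.Q) {v : V} (hv : v ∈ R.O b) (hn : nb (R.M b) v = ∅) :
    c1 Z R v = b := by
  rcases c1_or Z R v with h | h
  · exact absurd ⟨b, hb, hv, hn⟩ h.2
  · by_contra hne
    exact (disjoint_left.mp (R.Od _ h.1 _ hb hne)) h.2.1 hv

theorem c1_P {v : V} (h : c1 Z R v ∈ Z.P) : c1 Z R v = Z.c v := by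
  rcases c1_or Z R v with h1 | h1
  · exact h1.1
  · exact (not_PQ Z h h1.1).elim

theorem c1_Q {v : V} (h : c1 Z R v ∈ Z.Q) :
    v ∈ R.O (c1 Z R v) ∧ nb (R.M (c1 Z R v)) v = ∅ := by
  rcases c1_or Z R v with h1 | h1
  · rw [h1.1] at h
    exact (not_PQ Z (Z.cP v) h).elim
  · exact h1.2

theorem c1_pal (v : V) : c1 Z R v ∈ Z.P ∪ Z.Q := by
  rcases c1_or Z R v with h | h
  · rw [h.1]
    exact mem_union_left _ (Z.cP v)
  · exact mem_union_right _ h.1

theorem c1_adj (hR : ∀ b ∈ Z.Q, Disjoint (R.O b) (Z.W ∪ UH) ∧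
      ∀ v ∈ R.O b, ∀ w ∈ R.O b, ¬ G.Adj v w) {v w : V} (h : G.Adj v w) :
    c1 Z R v ≠ c1 Z R w := by
  intro he
  rcases c1_or Z R v with h1 | h1
  · rcases c1_or Z R w with h2 | h2
    · rw [h1.1, h2.1] at he
      exact Z.cadj v w h he
    · rw [← he, h1.1] at h2
      exact not_PQ Z (Z.cP v) h2.1
  · have hw : c1 Z R w ∈ Z.Q := by rw [← he]; exact h1.1
    have h2 := c1_Q Z R hw
    rw [← he] at h2
    exact (hR _ h1.1).2 v h1.2.1 w h2.1 h

theorem c1_H (hR : ∀ b ∈ Z.Q, Disjoint (R.O b) (Z.W ∪ UH) ∧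
      ∀ v ∈ R.O b, ∀ w ∈ R.O b, ¬ G.Adj v w) {v : V} (h : v ∈ UH) :
    c1 Z R v = c0 v := by
  rcases c1_or Z R v with h1 | h1
  · rw [h1.1]
    exact Z.cH v h
  · exact ((disjoint_left.mp (hR _ h1.1).1) h1.2.1 (mem_union_right _ h)).elim

/-- vertices not available in the round `b` of `P` -/
noncomputable def X1 (b : Fin k) : Finset V :=
  univ.filter (fun v => c1 Z R v = b) ∪ vs (Z.K b)

/-- edges used by the forced matchings and by the rounds of `Q` -/
def D1 : SimpleGraph V := un Z.K ⊔ un R.M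

variable (R' : Rnd G d k (Hv η G d) Z.P (D1 Z R) (X1 Z R))

/-- all matchings -/
def MM (b : Fin k) : SimpleGraph V := Z.K b ⊔ R.M b ⊔ R'.M b

theorem MM_adj {b : Fin k} {v w : V} : (MM Z R R' b).Adj v w ↔
    (Z.K b).Adj v w ∨ (R.M b).Adj v w ∨ (R'.M b).Adj v w := by
  unfold MM
  simp only [SimpleGraph.sup_adj]
  tauto

theorem nb_MM (b : Fin k) (v : V) :
    nb (MM Z R R' b) v = nb (Z.K b) v ∪ nb (R.M b) v ∪ nb (R'.M b) v := by
  unfold MM
  rw [nb_sup, nb_sup]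

theorem KR {b : Fin k} {v w x : V} (h1 : (Z.K b).Adj v w) (h2 : (R.M b).Adj v x) : False :=
  (R.MD b v x h2).2 (vs_of_adj h1)

theorem KR' {b : Fin k} {v w x : V} (h1 : (Z.K b).Adj v w) (h2 : (R'.M b).Adj v x) : False :=
  (R'.MD b v x h2).2 (mem_union_right _ (vs_of_adj h1))

theorem RR' {b : Fin k} {v w x y : V} (h1 : (R.M b).Adj v w) (h2 : (R'.M b).Adj x y) : False :=
  not_PQ Z (R'.MI b x y h2) (R.MI b v w h1)

theorem MM_mat (b : Fin k) : IsMat (MM Z R R' b) := by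
  unfold MM
  refine isMat_sup (isMat_sup (Z.Kmat b) (R.Mmat b) ?_) (R'.Mmat b) ?_
  · intro v hv
    obtain ⟨w, hw⟩ := hv
    rw [← not_nonempty_iff_eq_empty]
    rintro ⟨x, hx⟩
    exact KR Z R (mem_nb.mp hw) (mem_nb.mp hx)
  · intro v hv
    rw [nb_sup] at hv
    obtain ⟨w, hw⟩ := hv
    rw [← not_nonempty_iff_eq_empty]
    rintro ⟨x, hx⟩
    rcases mem_union.mp hw with hw | hw
    · exact KR' Z R R' (mem_nb.mp hw) (mem_nb.mp hx)
    · exact RR' Z R R' (mem_nb.mp hw) (mem_nb.mp hx)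

theorem MM_c {b : Fin k} {v w : V} (h : (MM Z R R' b).Adj v w) : c1 Z R v ≠ b := by
  intro hc
  rcases (MM_adj Z R R').mp h with h | h | h
  · rcases Z.KI b v w h with hb | hb
    · have h1 := c1_P Z R (v := v) (by rw [hc]; exact hb)
      rw [hc] at h1
      exact Z.Kc b v w h h1.symm
    · have h1 := c1_Q Z R (v := v) (by rw [hc]; exact hb)
      rw [hc] at h1
      exact (disjoint_left.mp (R.OX b hb)) h1.1 (vs_of_adj h)
  · have hb := R.MI b v w h
    have h1 := c1_Q Z R (v := v) (by rw [hc]; exact hb)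
    rw [hc] at h1
    have h2 := mem_nb.mpr h
    rw [h1.2] at h2
    exact notMem_empty _ h2
  · exact (R'.MD b v w h).2 (mem_union_left _ (mem_filter.mpr ⟨mem_univ _, hc⟩))

theorem MM_d {b b' : Fin k} (hbb : b ≠ b') {v w : V} (h : (MM Z R R' b).Adj v w)
    (h' : (MM Z R R' b').Adj v w) : False := by
  rcases (MM_adj Z R R').mp h with h | h | h <;>
  rcases (MM_adj Z R R').mp h' with h' | h' | h'
  · exact Z.Kd b b' hbb v w h h'
  · exact (R.MD b' v w h').1 (un_adj h)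
  · exact (R'.MD b' v w h').1 (Or.inl (un_adj h))
  · exact (R.MD b v w h).1 (un_adj h')
  · exact R.Md b b' hbb v w h h'
  · exact (R'.MD b' v w h').1 (Or.inr (un_adj h))
  · exact (R'.MD b v w h).1 (Or.inl (un_adj h'))
  · exact (R'.MD b v w h).1 (Or.inr (un_adj h'))
  · exact R'.Md b b' hbb v w h h'

theorem MM_le (b : Fin k) : MM Z R R' b ≤ G := by
  intro v w h
  rcases (MM_adj Z R R').mp h with h | h | h
  · exact Z.Kle b h
  · exact R.Mle b h
  · exact R'.Mle b h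

theorem MM_pal {b : Fin k} {v w : V} (h : (MM Z R R' b).Adj v w) : b ∈ Z.P ∪ Z.Q := by
  rcases (MM_adj Z R R').mp h with h | h | h
  · exact mem_union.mpr (Z.KI b v w h)
  · exact mem_union_right _ (R.MI b v w h)
  · exact mem_union_left _ (R'.MI b v w h)

theorem MM_covQ {v : V} (hv : v ∈ Hv η G d) {b : Fin k} (hb : b ∈ Z.Q) (hc : b ≠ c1 Z R v) :
    (nb (MM Z R R' b) v).Nonempty := by
  rw [nb_MM]
  by_cases h1 : (nb (Z.K b) v).Nonempty
  · exact Nonempty.inl (Nonempty.inl h1)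
  by_cases h2 : (nb (R.M b) v).Nonempty
  · exact Nonempty.inl (Nonempty.inr h2)
  exfalso
  by_cases h3 : v ∈ R.O b
  · exact hc (c1_eq Z R hb h3 (not_nonempty_iff_eq_empty.mp h2)).symm
  · exact h2 (R.Mcov b hb v hv (fun h => h1 (mem_vs.mp h)) h3)

theorem MM_covP {v : V} (hv : v ∈ Hv η G d) {b : Fin k} (hb : b ∈ Z.P) (hc : b ≠ c1 Z R v)
    (ho : v ∉ R'.O b) : (nb (MM Z R R' b) v).Nonempty := by
  rw [nb_MM]
  by_cases h1 : (nb (Z.K b) v).Nonempty
  · exact Nonempty.inl (Nonempty.inl h1)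
  refine Nonempty.inr (R'.Mcov b hb v hv ?_ ho)
  intro h
  rcases mem_union.mp h with h | h
  · exact hc (mem_filter.mp h).2.symm
  · exact h1 (mem_vs.mp h)

/-- putting everything together -/
noncomputable def full (hR : ∀ b ∈ Z.Q, Disjoint (R.O b) (Z.W ∪ UH) ∧
      ∀ v ∈ R.O b, ∀ w ∈ R.O b, ¬ G.Adj v w) (hR' : ∀ b ∈ Z.P, R'.O b ⊆ Z.W) : Full Z where
  c := c1 Z R
  cPal := c1_pal Z R
  cadj := fun _ _ h => c1_adj Z R hR h
  cH := fun _ h => c1_H Z R hR h
  M := MM Z R R'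
  Mle := MM_le Z R R'
  Mmat := MM_mat Z R R'
  MK := fun _ => fun _ _ h => (MM_adj Z R R').mpr (Or.inl h)
  Mpal := fun _ _ _ h => MM_pal Z R R' h
  Mc := fun _ _ _ h => MM_c Z R R' h
  Md := fun _ _ hb _ _ h h' => MM_d Z R R' hb h h'
  Mcov := by
    intro v hv hW b hb hc
    rcases mem_union.mp hb with hb | hb
    · exact MM_covP Z R R' hv hb hc (fun h => hW (hR' b hb h))
    · exact MM_covQ Z R R' hv hb hc
  McovW := by
    intro v hv hW
    by_cases h : ∃ b0 ∈ Z.P, v ∈ R'.O b0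
    · obtain ⟨b0, hb0, hv0⟩ := h
      refine ⟨b0, ?_⟩
      intro b hb hc hbb
      rcases mem_union.mp hb with hb | hb
      · exact MM_covP Z R R' hv hb hc
          (fun h => (disjoint_left.mp (R'.Od b hb b0 hb0 hbb)) h hv0)
      · exact MM_covQ Z R R' hv hb hc
    · refine ⟨c1 Z R v, ?_⟩
      intro b hb hc _
      rcases mem_union.mp hb with hb | hb
      · exact MM_covP Z R R' hv hb hc (fun h' => h ⟨b, hb, h'⟩)
      · exact MM_covQ Z R R' hv hb hc

end full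

theorem stmt_FULL (hQ : Stmt_QALL.{u}) (hP : Stmt_PALL.{u}) : Stmt_FULL.{u} := by
  intro η α hη hη1 hα
  obtain ⟨d1, hQ⟩ := hQ η hη hη1
  obtain ⟨d2, hP⟩ := hP η α hη hη1 hα
  refine ⟨max (max d1 d2) 100, ?_⟩
  intro V _ G d k χ J UH c0 EH t0 Z hd hdeg hNB hχ hJ hJadj hUH
  have hd1 : d1 ≤ d := le_trans (le_trans (le_max_left _ _) (le_max_left _ _)) hd
  have hd2 : d2 ≤ d := le_trans (le_trans (le_max_right _ _) (le_max_left _ _)) hd
  have hd3 : (100 : ℝ) ≤ (d : ℝ) := by exact_mod_cast le_trans (le_max_right _ _) hd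
  have hηd : 0 < η * d := by positivity
  have hKI : ∀ b v w, (Z.K b).Adj v w → b ∈ Z.P ∪ Z.Q := fun b v w h =>
    mem_union.mpr (Z.KI b v w h)
  have hPQ : (((Z.P ∪ Z.Q).card : ℕ) : ℝ) ≤ η / 400 * d := by
    have h1 : (((Z.P ∪ Z.Q).card : ℕ) : ℝ) ≤ Z.P.card + Z.Q.card := by
      exact_mod_cast card_union_le _ _
    have h2 := Z.Pd
    have h3 := Z.Qd
    have h4 : η / 800 * d + η / 800 * d = η / 400 * d := by ring
    linarith
  have hK : ∀ v, ((nb (un Z.K) v).card : ℝ) ≤ η / 400 * d := by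
    intro v
    have h1 : ((nb (un Z.K) v).card : ℝ) ≤ ((Z.P ∪ Z.Q).card : ℕ) := by
      exact_mod_cast nb_un_card Z.K (Z.P ∪ Z.Q) Z.Kmat hKI v
    linarith
  obtain ⟨R, hR⟩ := hQ G d k χ J Z.Q (un Z.K) (fun b => vs (Z.K b)) (Z.W ∪ UH) hd1 hdeg hNB hχ hJ
    hJadj (le_trans Z.Qd (by nlinarith)) (fun v => le_trans (hK v) (by nlinarith))
    (by
      intro b hb v
      have h1 : nb G v ∩ vs (Z.K b) ⊆ nb G v ∩ Z.W := by
        intro w hw
        obtain ⟨hw1, hw2⟩ := mem_inter.mp hw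
        obtain ⟨x, hx⟩ := mem_vs.mp hw2
        exact mem_inter.mpr ⟨hw1, Z.KQ b hb w x (mem_nb.mp hx)⟩
      have h2 : ((nb G v ∩ vs (Z.K b)).card : ℝ) ≤ ((nb G v ∩ Z.W).card : ℝ) := by
        exact_mod_cast card_le_card h1
      have h3 := Z.Wd v
      nlinarith)
    (by
      intro v
      have h1 : ((nb G v ∩ (Z.W ∪ UH)).card : ℝ) ≤ ((nb G v ∩ Z.W).card : ℝ) + 2 := by
        have h2 : (nb G v ∩ (Z.W ∪ UH)).card ≤ (nb G v ∩ Z.W).card + (nb G v ∩ UH).card := by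
          rw [inter_union_distrib_left]
          exact card_union_le _ _
        have h3 := hUH v
        exact_mod_cast (by omega : (nb G v ∩ (Z.W ∪ UH)).card ≤ (nb G v ∩ Z.W).card + 2)
      have h3 := Z.Wd v
      have h4 : η / 800 * d ≤ 1 / 100 / 800 * d := by
        apply mul_le_mul_of_nonneg_right _ (by linarith)
        linarith
      linarith)
  obtain ⟨R', hR'⟩ := hP G d k Z.P (D1 Z R) (X1 Z R) Z.W hd2 hdeg hNB
    (le_trans Z.Pd (by nlinarith)) Z.Pc
    (by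
      intro v
      have h1 : (nb (D1 Z R) v).card ≤ (nb (un Z.K) v).card + (nb (un R.M) v).card := by
        unfold D1
        rw [nb_sup]
        exact card_union_le _ _
      have h2 := nb_un_card R.M Z.Q R.Mmat R.MI v
      have h3 : ((nb (D1 Z R) v).card : ℝ) ≤ ((nb (un Z.K) v).card : ℝ) + Z.Q.card := by
        exact_mod_cast le_trans h1 (by omega)
      have h4 := hK v
      have h5 := Z.Qd
      nlinarith)
    (by
      intro b hb v
      have h1 : nb G v ∩ X1 Z R b ⊆ (nb G v).filter (fun w => Z.c w = b ∨ w ∈ UH) := by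
        intro w hw
        obtain ⟨hw1, hw2⟩ := mem_inter.mp hw
        refine mem_filter.mpr ⟨hw1, ?_⟩
        rcases mem_union.mp hw2 with h | h
        · left
          have h2 := (mem_filter.mp h).2
          rw [← h2]
          exact (c1_P Z R (by rw [h2]; exact hb)).symm
        · right
          obtain ⟨x, hx⟩ := mem_vs.mp h
          exact Z.KP b hb w x (mem_nb.mp hx)
      have h2 : ((nb G v ∩ X1 Z R b).card : ℝ) ≤
          (((nb G v).filter (fun w => Z.c w = b ∨ w ∈ UH)).card : ℝ) := by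
        exact_mod_cast card_le_card h1
      have h3 := Z.Xd b hb v
      nlinarith)
    (by
      intro b hb D C hD hE hC hCo
      refine Z.Wc b hb D (X1 Z R b) C hD ?_ hE hC hCo
      intro v hv
      rcases mem_union.mp hv with h | h
      · left
        have h2 := (mem_filter.mp h).2
        rw [← h2]
        exact (c1_P Z R (by rw [h2]; exact hb)).symm
      · right
        obtain ⟨x, hx⟩ := mem_vs.mp h
        exact Z.KP b hb v x (mem_nb.mp hx))
  exact ⟨full Z R R' hR hR'⟩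

end Pool.Agent.Work.MP_db9399_sc.helper43
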