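import Mathlib
import Pool.Agent.Work.MP_db9399_sc.Interface

/-!
# MP_db9399, THEOREM SC, block PRE, part A (helper43): the choices are consistent
-/

set_option autoImplicit false

namespace Pool.Agent.Work.MP_db9399_sc.helper43.PREX

open Finset Classical
open Pool.Agent.Work.MP_db9399_all (nb)
open Pool.Agent.Work.MP_db9399_dn (NB IsMat)
open Pool.Agent.Work.MP_db9399_sc

universe u

section
variable {V : Type u} [Fintype V]

theorem mem_nb {G : SimpleGraph V} {v w : V} : w ∈ nb G v ↔ G.Adj v w := by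
  simp [nb]

/-- forced edges -/
def KK {k : ℕ} (G EH : SimpleGraph V) (t0 : V → V → Fin k) (W : Finset V) (f : ℕ → Fin k)
    (N1 : ℕ) (t : V → V → ℕ) (h0 : ∀ v w, EH.Adj v w → t0 v w = t0 w v)
    (ht : ∀ v w, t v w = t w v) (b : Fin k) : SimpleGraph V where
  Adj v w := (EH.Adj v w ∧ t0 v w = b) ∨ (G.Adj v w ∧ v ∈ W ∧ w ∈ W ∧ f (N1 + t v w) = b)
  symm := ⟨by
    rintro v w (⟨h1, h2⟩ | ⟨h1, h2, h3, h4⟩)
    · exact Or.inl ⟨h1.symm, by rw [← h0 v w h1]; exact h2⟩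
    · exact Or.inr ⟨h1.symm, h3, h2, by rw [ht w v]; exact h4⟩⟩
  loopless := ⟨by
    rintro v (⟨h1, _⟩ | ⟨h1, _⟩)
    · exact EH.loopless.irrefl v h1
    · exact G.loopless.irrefl v h1⟩

end

theorem mkPre {V : Type u} [Fintype V] (G : SimpleGraph V) (d k : ℕ) (η α : ℝ) (UH : Finset V)
    (c0 : V → Fin k) (EH : SimpleGraph V) (t0 : V → V → Fin k) (CH : Finset (Fin k))
    (hc0 : ∀ v ∈ UH, ∀ w ∈ UH, G.Adj v w → c0 v ≠ c0 w) (hEG : EH ≤ G) (hEM : IsMat EH)
    (hE : ∀ v w, EH.Adj v w → v ∈ UH ∧ t0 v w ≠ c0 v ∧ t0 v w = t0 w v)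
    (hCc : ∀ v ∈ UH, c0 v ∈ CH) (hCt : ∀ v w, EH.Adj v w → t0 v w ∈ CH)
    (f : ℕ → Fin k) (N1 N2 : ℕ) (hf : ∀ i < N1 + N2, ∀ j < N1 + N2, f i = f j → i = j)
    (hfC : ∀ i < N1 + N2, f i ∉ CH)
    (cd : V → ℕ) (hcd : ∀ v, cd v < N1) (hcda : ∀ v w, G.Adj v w → cd v ≠ cd w)
    (W : Finset V) (hWU : ∀ v ∈ W, v ∉ UH) (t : V → V → ℕ) (ht : ∀ v w, t v w = t w v)
    (htl : ∀ v w, t v w < N2)
    (hti : ∀ v x y, v ∈ W → x ∈ W → y ∈ W → G.Adj v x → G.Adj v y → t v x = t v y → x = y)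
    (h1 : ((CH.card + N1 : ℕ) : ℝ) * 24 ≤ α * d) (h2 : ((CH.card + N1 : ℕ) : ℝ) ≤ η / 800 * d)
    (h3 : (N2 : ℝ) ≤ η / 800 * d)
    (hWd : ∀ v, ((nb G v ∩ W).card : ℝ) ≤ η / 800 * d)
    (hXd : ∀ i < N1, ∀ v, (((nb G v).filter (fun w => cd w = i ∨ w ∈ UH)).card : ℝ) ≤ η / 800 * d)
    (hXd' : ∀ v, (((nb G v).filter (fun w => w ∈ UH)).card : ℝ) ≤ η / 800 * d)
    (hWc : ∀ (D : SimpleGraph V) (X C : Finset V), (∀ v, ((nb D v).card : ℝ) ≤ η / 100 * d) →
      ((∀ v ∈ X, v ∈ UH) ∨ ∃ i < N1, ∀ v ∈ X, cd v = i ∨ v ∈ UH) →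
      Env G (G \ D) d (univ \ X) (Hv η G d \ X) →
      Crit (G \ D) d (univ \ X) (Hv η G d \ X) C → Conn (G \ D) C →
      α * C.card ≤ ((C ∩ W).card : ℝ)) :
    Nonempty (Pre G d k η α UH c0 EH t0) := by
  obtain ⟨P', hP'⟩ : ∃ P' : Finset (Fin k), P' = (range N1).image f := ⟨_, rfl⟩
  obtain ⟨Q, hQ⟩ : ∃ Q : Finset (Fin k), Q = (range N2).image (fun i => f (N1 + i)) := ⟨_, rfl⟩
  have mP' : ∀ b, b ∈ P' ↔ ∃ i < N1, f i = b := by
    intro b
    rw [hP']
    simp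
  have mQ : ∀ b, b ∈ Q ↔ ∃ i < N2, f (N1 + i) = b := by
    intro b
    rw [hQ]
    simp
  have hQC : ∀ b ∈ Q, b ∉ CH := by
    intro b hb
    obtain ⟨i, hi, rfl⟩ := (mQ b).mp hb
    exact hfC _ (by omega)
  have hPC : ∀ b ∈ P', b ∉ CH := by
    intro b hb
    obtain ⟨i, hi, rfl⟩ := (mP' b).mp hb
    exact hfC _ (by omega)
  have hPQ' : ∀ b ∈ P', b ∉ Q := by
    intro b hb hb'
    obtain ⟨i, hi, rfl⟩ := (mP' b).mp hb
    obtain ⟨j, hj, hij⟩ := (mQ _).mp hb'
    have := hf _ (by omega) _ (by omega) hij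
    omega
  have hPcard : (CH ∪ P').card ≤ CH.card + N1 := by
    refine le_trans (card_union_le _ _) ?_
    have : P'.card ≤ N1 := by
      rw [hP']
      exact le_trans card_image_le (by rw [card_range])
    omega
  have hPcard' : (((CH ∪ P').card : ℕ) : ℝ) ≤ ((CH.card + N1 : ℕ) : ℝ) := by
    exact_mod_cast hPcard
  have hQcard : Q.card ≤ N2 := by
    rw [hQ]
    exact le_trans card_image_le (by rw [card_range])
  have hdis : ∀ b, b ∈ CH ∪ P' → b ∉ Q := by
    intro b hb hb'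
    rcases mem_union.mp hb with h | h
    · exact hQC b hb' h
    · exact hPQ' b h hb'
  obtain ⟨c, hc⟩ : ∃ c : V → Fin k, c = fun v => if v ∈ UH then c0 v else f (cd v) := ⟨_, rfl⟩
  have hcU : ∀ v ∈ UH, c v = c0 v := by
    intro v hv
    rw [hc]
    exact if_pos hv
  have hcn : ∀ v, v ∉ UH → c v = f (cd v) := by
    intro v hv
    rw [hc]
    exact if_neg hv
  have hcP : ∀ v, c v ∈ CH ∪ P' := by
    intro v
    by_cases hv : v ∈ UH
    · rw [hcU v hv]
      exact mem_union_left _ (hCc v hv)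
    · rw [hcn v hv]
      exact mem_union_right _ ((mP' _).mpr ⟨cd v, hcd v, rfl⟩)
  have h0 : ∀ v w, EH.Adj v w → t0 v w = t0 w v := fun v w h => (hE v w h).2.2
  have hft : ∀ v w, f (N1 + t v w) ∈ Q := fun v w => (mQ _).mpr ⟨t v w, htl v w, rfl⟩
  have hcX : ∀ b, b ∈ CH ∪ P' → (∀ v, c v = b ∨ v ∈ UH → v ∈ UH) ∨
      ∃ i < N1, ∀ v, c v = b ∨ v ∈ UH → cd v = i ∨ v ∈ UH := by
    intro b hb
    rcases mem_union.mp hb with h | h
    · left
      intro v hv
      rcases hv with hv | hv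
      · by_contra hvU
        rw [hcn v hvU] at hv
        rw [← hv] at h
        exact hfC _ (by have := hcd v; omega) h
      · exact hv
    · right
      obtain ⟨i, hi, hib⟩ := (mP' b).mp h
      refine ⟨i, hi, ?_⟩
      intro v hv
      by_cases hvU : v ∈ UH
      · exact Or.inr hvU
      · rcases hv with hv | hv
        · left
          rw [hcn v hvU, ← hib] at hv
          exact hf _ (by have := hcd v; omega) _ (by omega) hv
        · exact Or.inr hv
  refine ⟨{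
    P := CH ∪ P'
    Q := Q
    PQ := disjoint_left.mpr hdis
    Pc := le_trans (mul_le_mul_of_nonneg_right hPcard' (by norm_num)) h1
    Pd := le_trans hPcard' h2
    Qd := le_trans (by exact_mod_cast hQcard) h3
    c := c
    cP := hcP
    cadj := ?_
    cH := hcU
    K := KK G EH t0 W f N1 t h0 ht
    Kle := ?_
    Kmat := ?_
    Kd := ?_
    KI := ?_
    Kc := ?_
    KP := ?_
    KH := fun v w h => Or.inl ⟨h, rfl⟩
    W := W
    WU := hWU
    KW := ?_
    KQ := ?_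
    Wd := hWd
    Xd := ?_
    Wc := ?_ }⟩
  · intro v w h
    by_cases hv : v ∈ UH
    · by_cases hw : w ∈ UH
      · rw [hcU v hv, hcU w hw]
        exact hc0 v hv w hw h
      · rw [hcU v hv, hcn w hw]
        intro he
        exact hfC _ (by have := hcd w; omega) (he ▸ hCc v hv)
    · by_cases hw : w ∈ UH
      · rw [hcn v hv, hcU w hw]
        intro he
        exact hfC _ (by have := hcd v; omega) (he ▸ hCc w hw)
      · rw [hcn v hv, hcn w hw]
        intro he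
        exact hcda v w h (hf _ (by have := hcd v; omega) _ (by have := hcd w; omega) he)
  · rintro b v w (⟨h, _⟩ | ⟨h, _⟩)
    · exact hEG h
    · exact h
  · intro b v
    rw [card_le_one]
    intro x hx y hy
    rcases mem_nb.mp hx with ⟨hx1, hx2⟩ | ⟨hx1, hx2, hx3, hx4⟩
    · rcases mem_nb.mp hy with ⟨hy1, hy2⟩ | ⟨hy1, hy2, hy3, hy4⟩
      · exact card_le_one.mp (hEM v) x (mem_nb.mpr hx1) y (mem_nb.mpr hy1)
      · exact absurd (hE v x hx1).1 (hWU v hy2)
    · rcases mem_nb.mp hy with ⟨hy1, hy2⟩ | ⟨hy1, hy2, hy3, hy4⟩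
      · exact absurd (hE v y hy1).1 (hWU v hx2)
      · refine hti v x y hx2 hx3 hy3 hx1 hy1 ?_
        have h5 := hf (N1 + t v x) (by have := htl v x; omega) (N1 + t v y)
          (by have := htl v y; omega) (hx4.trans hy4.symm)
        omega
  · rintro b b' hb v w (⟨h, h'⟩ | ⟨h, h', _, h''⟩) (⟨g, g'⟩ | ⟨g, g', _, g''⟩)
    · exact hb (h'.symm.trans g')
    · exact hWU v g' (hE v w h).1
    · exact hWU v h' (hE v w g).1
    · exact hb (h''.symm.trans g'')
  · rintro b v w (⟨h, h'⟩ | ⟨h, h', _, h''⟩)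
    · left
      rw [← h']
      exact mem_union_left _ (hCt v w h)
    · right
      rw [← h'']
      exact hft v w
  · rintro b v w (⟨h, h'⟩ | ⟨h, h', _, h''⟩)
    · rw [hcU v (hE v w h).1, ← h']
      exact (hE v w h).2.1.symm
    · intro he
      refine hdis b (he ▸ hcP v) ?_
      rw [← h'']
      exact hft v w
  · rintro b hb v w (⟨h, h'⟩ | ⟨h, h', _, h''⟩)
    · exact (hE v w h).1
    · exfalso
      refine hdis b hb ?_
      rw [← h'']
      exact hft v w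
  · intro v hv w hw h
    exact ⟨f (N1 + t v w), hft v w, Or.inr ⟨h, hv, hw, rfl⟩⟩
  · rintro b hb v w (⟨h, h'⟩ | ⟨h, h', _, h''⟩)
    · exfalso
      refine hQC b hb ?_
      rw [← h']
      exact hCt v w h
    · exact h'
  · intro b hb v
    rcases hcX b hb with h | ⟨i, hi, h⟩
    · refine le_trans ?_ (hXd' v)
      have : (nb G v).filter (fun w => c w = b ∨ w ∈ UH) ⊆ (nb G v).filter (fun w => w ∈ UH) := by
        intro w hw
        obtain ⟨hw1, hw2⟩ := mem_filter.mp hw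
        exact mem_filter.mpr ⟨hw1, h w hw2⟩
      exact_mod_cast card_le_card this
    · refine le_trans ?_ (hXd i hi v)
      have : (nb G v).filter (fun w => c w = b ∨ w ∈ UH) ⊆
          (nb G v).filter (fun w => cd w = i ∨ w ∈ UH) := by
        intro w hw
        obtain ⟨hw1, hw2⟩ := mem_filter.mp hw
        exact mem_filter.mpr ⟨hw1, h w hw2⟩
      exact_mod_cast card_le_card this
  · intro b hb D X C hD hX hEnv hCr hCo
    refine hWc D X C hD ?_ hEnv hCr hCo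
    rcases hcX b hb with h | ⟨i, hi, h⟩
    · exact Or.inl (fun v hv => h v (hX v hv))
    · exact Or.inr ⟨i, hi, fun v hv => h v (hX v hv)⟩

end Pool.Agent.Work.MP_db9399_sc.helper43.PREX
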