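import Mathlib
import Pool.Agent.Work.MP_db9399_sc.Interface
import Pool.Agent.Work.MP_db9399_all_helper34.VIZ
import Pool.Agent.Work.MP_db9399_sc_helper43.PREA

/-!
# MP_db9399, THEOREM SC, block PRE (helper43): the choices before the matchings
-/

set_option autoImplicit false

namespace Pool.Agent.Work.MP_db9399_sc.helper43

open Finset Classical
open Pool.Agent.Work.MP_db9399_all (nb stmt_VIZ)
open Pool.Agent.Work.MP_db9399_px (LWalk hit)
open Pool.Agent.Work.MP_db9399_dn (NB IsMat)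
open Pool.Agent.Work.MP_db9399_sc
open PREX (mkPre)

universe u

theorem inj_colors {k : ℕ} (CH : Finset (Fin k)) (N : ℕ) (h : CH.card + N ≤ k) (hk : 0 < k) :
    ∃ f : ℕ → Fin k, (∀ i < N, ∀ j < N, f i = f j → i = j) ∧ ∀ i < N, f i ∉ CH := by
  have h1 : Fintype.card (Fin N) ≤ Fintype.card {b : Fin k // b ∉ CH} := by
    rw [Fintype.card_fin, Fintype.card_subtype_compl, Fintype.card_fin, Fintype.card_coe]
    omega
  obtain ⟨g⟩ := Function.Embedding.nonempty_of_card_le h1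
  refine ⟨fun n => if hn : n < N then (g ⟨n, hn⟩).1 else ⟨0, hk⟩, ?_, ?_⟩
  · intro i hi j hj hij
    simp only [dif_pos hi, dif_pos hj] at hij
    have := g.injective (Subtype.ext hij)
    exact Fin.mk.inj_iff.mp this
  · intro i hi
    simp only [dif_pos hi]
    exact (g ⟨i, hi⟩).2

theorem numbersP (M d x hh ha ho ci cu cw ε : ℝ) (hM : 1 ≤ M) (hd : 20000 * M ≤ d)
    (hε : ε * (16 * M) = 1) (hx : 0 ≤ x) (hcu : 0 ≤ cu)
    (h1 : hh ≤ 2 * M * ha) (h2 : ho ≤ ε * x) (h3 : ci ≤ ε * x) (h4 : x ≤ hh + ci)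
    (h5 : ha ≤ cw + ho + cu) (h6 : d * cu ≤ 11 / 10 * 2 * x + 1400 * d) (h7 : 99 * d ≤ 100 * x) :
    1 / (8 * M) * x ≤ cw := by
  have hM0 : 0 < M := by linarith
  have hεM : ε * M = 1 / 16 := by linarith
  have hε0 : 0 < ε := by
    by_contra hn
    rw [not_lt] at hn
    nlinarith
  have hε1 : ε ≤ 1 / 16 := by nlinarith
  have e1 : ε * x ≤ 1 / 16 * x := mul_le_mul_of_nonneg_right hε1 hx
  have e2 : M * ho ≤ 1 / 16 * x := by
    have := mul_le_mul_of_nonneg_left h2 hM0.le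
    have e : M * (ε * x) = ε * M * x := by ring
    rw [e, hεM] at this
    exact this
  have e3 : 20000 * M * cu ≤ d * cu := mul_le_mul_of_nonneg_right hd hcu
  have e4 : M * ha ≤ M * cw + M * ho + M * cu := by
    have := mul_le_mul_of_nonneg_left h5 hM0.le
    have e : M * (cw + ho + cu) = M * cw + M * ho + M * cu := by ring
    rw [e] at this
    exact this
  have e5 : 1 / 2 * (15 / 16 * x) ≤ M * ha := by
    have : hh ≤ 2 * (M * ha) := by linarith
    linarith
  have e6 : 1 / 8 * x ≤ M * cw := by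
    have e7 : M * cu ≤ 1 / 10 * x := by
      have : 20000 * (M * cu) ≤ 11 / 10 * 2 * x + 1400 * d := by linarith
      linarith
    linarith
  have e7 : 1 / (8 * M) * x = (1 / 8 * x) / M := by
    field_simp
  rw [e7, div_le_iff₀ hM0]
  linarith

theorem stmt_PRE (hCODE : Stmt_CODE.{u}) (hRND : Stmt_RND.{u}) (hDEP : Stmt_DEP.{u}) :
    Stmt_PRE.{u} := by
  intro η hη hη1
  obtain ⟨M, hM⟩ : ∃ M : ℕ, 3200 / η ≤ (M : ℝ) := ⟨_, Nat.le_ceil _⟩
  have hηM : 3200 ≤ η * M := by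
    rw [div_le_iff₀ hη] at hM
    linarith
  have hM1 : (1 : ℝ) ≤ M := by
    by_contra hn
    rw [not_le] at hn
    have : (0 : ℝ) ≤ M := Nat.cast_nonneg _
    nlinarith
  have hMn : 0 < M := by
    have : (0 : ℝ) < M := by linarith
    exact_mod_cast this
  obtain ⟨ε, hεe⟩ : ∃ ε : ℝ, ε = 1 / (16 * M) := ⟨_, rfl⟩
  have hε0 : 0 < ε := by
    rw [hεe]
    positivity
  have hεM : ε * (16 * M) = 1 := by
    rw [hεe]
    field_simp
  obtain ⟨δ, dC, hδ, hCODE⟩ := hCODE ε hε0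
  obtain ⟨M2, hM2⟩ : ∃ M2 : ℕ, 4 / δ + 4000 / η ≤ (M2 : ℝ) := ⟨_, Nat.le_ceil _⟩
  have hηM2 : 4000 ≤ η * M2 := by
    have h1 : 4000 / η ≤ M2 := by
      have : 0 < 4 / δ := by positivity
      linarith
    rw [div_le_iff₀ hη] at h1
    linarith
  have hδM2 : 4 ≤ δ * M2 := by
    have h1 : 4 / δ ≤ M2 := by
      have : 0 < 4000 / η := by positivity
      linarith
    rw [div_le_iff₀ hδ] at h1
    linarith
  have hM21 : (1 : ℝ) ≤ M2 := by
    by_contra hn
    rw [not_le] at hn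
    have : (0 : ℝ) ≤ M2 := Nat.cast_nonneg _
    nlinarith
  have hM2n : 0 < M2 := by
    have : (0 : ℝ) < M2 := by linarith
    exact_mod_cast this
  obtain ⟨dR1, _, hR1⟩ := hRND M hMn
  obtain ⟨dR2, _, hR2⟩ := hRND M2 hM2n
  obtain ⟨dD, hDEP⟩ := hDEP
  obtain ⟨α, hαe⟩ : ∃ α : ℝ, α = 1 / (8 * M) := ⟨_, rfl⟩
  have hα0 : 0 < α := by
    rw [hαe]
    positivity
  obtain ⟨m, hme⟩ : ∃ m : ℝ, m = min (α / 24) (η / 800) := ⟨_, rfl⟩
  have hm0 : 0 < m := by
    rw [hme]
    exact lt_min (by positivity) (by positivity)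
  have hm1 : m ≤ α / 24 := by rw [hme]; exact min_le_left _ _
  have hm2 : m ≤ η / 800 := by rw [hme]; exact min_le_right _ _
  obtain ⟨d1, hd1⟩ : ∃ d1 : ℕ, 4 / δ + 3000 / η + 20000 * M ≤ (d1 : ℝ) := ⟨_, Nat.le_ceil _⟩
  refine ⟨m / (1 + M2), α, max (max (max dC dR1) (max dR2 dD)) d1, by positivity, hα0, ?_⟩
  intro V _ G d k χ J UH c0 EH t0 CH hd hdk hdeg hχ hJ hJa hUH hc0 hEG hEM hE hCHc hCc hCt
  have hdC : dC ≤ d := by
    refine le_trans ?_ hd
    exact le_trans (le_trans (le_max_left _ _) (le_max_left _ _)) (le_max_left _ _)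
  have hdR1 : dR1 ≤ d := by
    refine le_trans ?_ hd
    exact le_trans (le_trans (le_max_right _ _) (le_max_left _ _)) (le_max_left _ _)
  have hdR2 : dR2 ≤ d := by
    refine le_trans ?_ hd
    exact le_trans (le_trans (le_max_left _ _) (le_max_right _ _)) (le_max_left _ _)
  have hdD : dD ≤ d := by
    refine le_trans ?_ hd
    exact le_trans (le_trans (le_max_right _ _) (le_max_right _ _)) (le_max_left _ _)
  have hdd1 : (d1 : ℝ) ≤ d := by
    exact_mod_cast le_trans (le_max_right _ _) hd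
  have hq1 : 0 < 4 / δ := by positivity
  have hq2 : 0 < 3000 / η := by positivity
  have hdδ : 4 ≤ δ * d := by
    have h1 : 4 / δ ≤ d := by linarith
    rw [div_le_iff₀ hδ] at h1
    linarith
  have hdη : 3000 ≤ η * d := by
    have h1 : 3000 / η ≤ d := by linarith
    rw [div_le_iff₀ hη] at h1
    linarith
  have hdM : 20000 * M ≤ (d : ℝ) := by linarith
  have hdpos : (0 : ℝ) < d := by linarith
  obtain ⟨a, ha1, ha2⟩ := hR1 G d hdR1 hdeg
  obtain ⟨a2, hb1, hb2⟩ := hR2 G d hdR2 hdeg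
  obtain ⟨i0, hi0⟩ : ∃ i0 : Fin M, i0 = ⟨0, hMn⟩ := ⟨_, rfl⟩
  obtain ⟨W, hWe⟩ : ∃ W : Finset V, W = univ.filter (fun v => a v = i0 ∧ v ∉ UH) := ⟨_, rfl⟩
  have mW : ∀ v, v ∈ W ↔ a v = i0 ∧ v ∉ UH := by
    intro v
    rw [hWe]
    simp
  -- palette sizes
  obtain ⟨N1, hN1⟩ : ∃ N1 : ℕ, N1 = χ * M2 := ⟨_, rfl⟩
  obtain ⟨N2, hN2⟩ : ∃ N2 : ℕ, N2 = 2 * d / M + 1 := ⟨_, rfl⟩
  have hsize : ((CH.card + N1 : ℕ) : ℝ) ≤ m * d := by
    rw [hN1]
    push_cast
    have h1 : (χ : ℝ) * M2 ≤ m / (1 + M2) * d * M2 :=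
      mul_le_mul_of_nonneg_right hχ (Nat.cast_nonneg _)
    have h2 : m / (1 + M2) * d + m / (1 + M2) * d * M2 = m * d := by
      field_simp
    linarith
  have hN2b : (N2 : ℝ) ≤ η / 800 * d := by
    rw [hN2]
    push_cast
    have h1 : ((2 * d / M : ℕ) : ℝ) ≤ ((2 * d : ℕ) : ℝ) / M := Nat.cast_div_le
    have h2 : ((2 * d : ℕ) : ℝ) / M ≤ η / 1600 * d := by
      rw [div_le_iff₀ (by linarith)]
      push_cast
      have : (2 : ℝ) * d ≤ (η * M) / 1600 * d := by
        apply mul_le_mul_of_nonneg_right _ hdpos.le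
        linarith
      linarith
    have h3 : ((2 * d / M : ℕ) : ℝ) = ((2 * d / M : ℕ) : ℝ) := rfl
    linarith
  have hsum : CH.card + (N1 + N2) ≤ k := by
    have h1 : ((CH.card + (N1 + N2) : ℕ) : ℝ) ≤ (d : ℝ) := by
      have h2 : ((CH.card + (N1 + N2) : ℕ) : ℝ) = ((CH.card + N1 : ℕ) : ℝ) + N2 := by
        push_cast
        ring
      rw [h2]
      have h3 : m * d ≤ η / 800 * d := mul_le_mul_of_nonneg_right hm2 hdpos.le
      have h4 : η / 800 * d ≤ 1 / 2 * d := mul_le_mul_of_nonneg_right (by linarith) hdpos.le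
      linarith
    have h2 : CH.card + (N1 + N2) ≤ d := by exact_mod_cast h1
    omega
  obtain ⟨f, hf, hfC⟩ := inj_colors CH (N1 + N2) hsum (by omega)
  -- the code
  obtain ⟨cd, hcde⟩ : ∃ cd : V → ℕ, cd = fun v => J v * M2 + (a2 v).val := ⟨_, rfl⟩
  have hcde' : ∀ v, cd v = J v * M2 + (a2 v).val := by
    intro v
    rw [hcde]
  have hcd : ∀ v, cd v < N1 := by
    intro v
    rw [hcde', hN1]
    have h1 := hJ v
    have h2 := (a2 v).isLt
    calc J v * M2 + (a2 v).val < J v * M2 + M2 := by omega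
      _ = (J v + 1) * M2 := by ring
      _ ≤ χ * M2 := Nat.mul_le_mul_right _ (by omega)
  have hcda : ∀ v w, G.Adj v w → cd v ≠ cd w := by
    intro v w h he
    rw [hcde', hcde'] at he
    apply hJa v w h
    have h1 : (J v * M2 + (a2 v).val) / M2 = J v := by
      rw [Nat.mul_comm, Nat.mul_add_div hM2n, Nat.div_eq_of_lt (a2 v).isLt, Nat.add_zero]
    have h2 : (J w * M2 + (a2 w).val) / M2 = J w := by
      rw [Nat.mul_comm, Nat.mul_add_div hM2n, Nat.div_eq_of_lt (a2 w).isLt, Nat.add_zero]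
    rw [← h1, ← h2, he]
  have hcdm : ∀ v i, cd v = i → a2 v = ⟨i % M2, Nat.mod_lt _ hM2n⟩ := by
    intro v i h
    apply Fin.ext
    rw [← h, hcde']
    show (a2 v).val = (J v * M2 + (a2 v).val) % M2
    rw [Nat.mul_comm, Nat.mul_add_mod, Nat.mod_eq_of_lt (a2 v).isLt]
  have hUr : ∀ v, ((nb G v ∩ UH).card : ℝ) ≤ 2 := fun v => by exact_mod_cast hUH v
  have hXb : ∀ i v, (((nb G v).filter (fun w => cd w = i ∨ w ∈ UH)).card : ℝ) ≤
      2 * d / M2 + 2 := by
    intro i v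
    have h1 : (nb G v).filter (fun w => cd w = i ∨ w ∈ UH) ⊆
        (nb G v).filter (fun w => a2 w = ⟨i % M2, Nat.mod_lt _ hM2n⟩) ∪ (nb G v ∩ UH) := by
      intro w hw
      obtain ⟨hw1, hw2⟩ := mem_filter.mp hw
      rcases hw2 with hw2 | hw2
      · exact mem_union_left _ (mem_filter.mpr ⟨hw1, hcdm w i hw2⟩)
      · exact mem_union_right _ (mem_inter.mpr ⟨hw1, hw2⟩)
    have h2 : (((nb G v).filter (fun w => cd w = i ∨ w ∈ UH)).card : ℝ) ≤
        (((nb G v).filter (fun w => a2 w = ⟨i % M2, Nat.mod_lt _ hM2n⟩)).card : ℝ) +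
          ((nb G v ∩ UH).card : ℝ) := by
      exact_mod_cast le_trans (card_le_card h1) (card_union_le _ _)
    have h3 := hb1 v ⟨i % M2, Nat.mod_lt _ hM2n⟩
    have h4 : (((nb G v).filter (fun w => a2 w = ⟨i % M2, Nat.mod_lt _ hM2n⟩)).card : ℝ) ≤
        2 * d / M2 := by
      rw [le_div_iff₀ (by linarith)]
      linarith
    have h5 := hUr v
    linarith
  have hXb2 : 2 * (d : ℝ) / M2 + 2 ≤ η / 800 * d := by
    have h1 : 2 * (d : ℝ) / M2 ≤ η / 2000 * d := by
      rw [div_le_iff₀ (by linarith)]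
      have : (2 : ℝ) * d ≤ (η * M2) / 2000 * d := by
        apply mul_le_mul_of_nonneg_right _ hdpos.le
        linarith
      linarith
    linarith
  have hXb3 : 2 * (d : ℝ) / M2 + 2 ≤ δ * d := by
    have h1 : 2 * (d : ℝ) / M2 ≤ δ / 2 * d := by
      rw [div_le_iff₀ (by linarith)]
      have : (2 : ℝ) * d ≤ (δ * M2) / 2 * d := by
        apply mul_le_mul_of_nonneg_right _ hdpos.le
        linarith
      linarith
    linarith
  have hXb0 : 0 ≤ 2 * (d : ℝ) / M2 := by positivity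
  -- Vizing inside `W`
  have haW : ∀ v, ((nb G v).filter (fun w => a w = i0)).card ≤ 2 * d / M := by
    intro v
    rw [Nat.le_div_iff_mul_le hMn]
    have h1 := ha1 v i0
    have h2 : ((((nb G v).filter (fun w => a w = i0)).card * M : ℕ) : ℝ) ≤ ((2 * d : ℕ) : ℝ) := by
      push_cast
      linarith
    exact_mod_cast h2
  obtain ⟨GW, hGW⟩ : ∃ GW : SimpleGraph V, ∀ v w, GW.Adj v w ↔ G.Adj v w ∧ v ∈ W ∧ w ∈ W :=
    ⟨{ Adj := fun v w => G.Adj v w ∧ v ∈ W ∧ w ∈ W
       symm := ⟨fun _ _ h => ⟨h.1.symm, h.2.2, h.2.1⟩⟩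
       loopless := ⟨fun v h => G.loopless.irrefl v h.1⟩ }, fun _ _ => Iff.rfl⟩
  obtain ⟨t, ht1, ht2, ht3⟩ := stmt_VIZ GW (2 * d / M) (by
    intro v
    refine le_trans (card_le_card ?_) (haW v)
    intro w hw
    have h1 := (hGW v w).mp (PREX.mem_nb.mp hw)
    exact mem_filter.mpr ⟨PREX.mem_nb.mpr h1.1, ((mW w).mp h1.2.2).1⟩)
  refine mkPre G d k η α UH c0 EH t0 CH hc0 hEG hEM hE hCc hCt f N1 N2 hf hfC cd hcd hcda W
    (fun v hv => ((mW v).mp hv).2) t ht1 (fun v w => by rw [hN2]; exact ht2 v w) ?_ ?_ ?_ hN2b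
    ?_ (fun i _ v => le_trans (hXb i v) hXb2) ?_ ?_
  · intro v x y hv hx hy hvx hvy he
    exact ht3 v (by
      rw [mem_coe, PREX.mem_nb]
      exact (hGW v x).mpr ⟨hvx, hv, hx⟩) (by
      rw [mem_coe, PREX.mem_nb]
      exact (hGW v y).mpr ⟨hvy, hv, hy⟩) he
  · have h1 : m * d ≤ α / 24 * d := mul_le_mul_of_nonneg_right hm1 hdpos.le
    linarith
  · have h1 : m * d ≤ η / 800 * d := mul_le_mul_of_nonneg_right hm2 hdpos.le
    linarith
  · intro v
    have h1 : nb G v ∩ W ⊆ (nb G v).filter (fun w => a w = i0) := by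
      intro w hw
      obtain ⟨hw1, hw2⟩ := mem_inter.mp hw
      exact mem_filter.mpr ⟨hw1, ((mW w).mp hw2).1⟩
    have h2 : (nb G v ∩ W).card ≤ N2 := by
      rw [hN2]
      have := le_trans (card_le_card h1) (haW v)
      omega
    have h3 : ((nb G v ∩ W).card : ℝ) ≤ N2 := by exact_mod_cast h2
    linarith
  · intro v
    have h1 : (nb G v).filter (fun w => w ∈ UH) ⊆ nb G v ∩ UH := by
      intro w hw
      obtain ⟨hw1, hw2⟩ := mem_filter.mp hw
      exact mem_inter.mpr ⟨hw1, hw2⟩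
    have h2 : (((nb G v).filter (fun w => w ∈ UH)).card : ℝ) ≤ ((nb G v ∩ UH).card : ℝ) := by
      exact_mod_cast card_le_card h1
    have h3 := hUr v
    linarith
  · intro D X C hD hX hEnv hCr hCo
    have hXn : ∀ v, ((nb G v ∩ X).card : ℝ) ≤ 2 * d / M2 + 2 := by
      intro v
      rcases hX with hX | ⟨i, _, hX⟩
      · have h1 : nb G v ∩ X ⊆ nb G v ∩ UH := by
          intro w hw
          obtain ⟨hw1, hw2⟩ := mem_inter.mp hw
          exact mem_inter.mpr ⟨hw1, hX w hw2⟩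
        have h2 : ((nb G v ∩ X).card : ℝ) ≤ ((nb G v ∩ UH).card : ℝ) := by
          exact_mod_cast card_le_card h1
        have h3 := hUr v
        linarith
      · refine le_trans ?_ (hXb i v)
        have h1 : nb G v ∩ X ⊆ (nb G v).filter (fun w => cd w = i ∨ w ∈ UH) := by
          intro w hw
          obtain ⟨hw1, hw2⟩ := mem_inter.mp hw
          exact mem_filter.mpr ⟨hw1, hX w hw2⟩
        exact_mod_cast card_le_card h1
    obtain ⟨R, l, w, θ, hw, hl, hθ, hR, hlog, hout, hin⟩ := hCODE G (G \ D) d (univ \ X)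
      (Hv η G d \ X) C hdC hEnv (by
        intro v _
        have h1 : (nb G v \ nb (G \ D) v) ∩ (univ \ X) ⊆ nb D v := by
          intro w hw
          obtain ⟨hw1, _⟩ := mem_inter.mp hw
          obtain ⟨hw2, hw3⟩ := mem_sdiff.mp hw1
          rw [PREX.mem_nb] at hw2 hw3 ⊢
          by_contra hn
          exact hw3 ⟨hw2, hn⟩
        have h2 : ((((nb G v \ nb (G \ D) v) ∩ (univ \ X)).card : ℕ) : ℝ) ≤
            ((nb D v).card : ℝ) := by
          exact_mod_cast card_le_card h1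
        have h3 := hD v
        have h4 : η / 100 * d ≤ 1 / 10 * d := mul_le_mul_of_nonneg_right (by linarith) hdpos.le
        have h5 : ((10 * ((nb G v \ nb (G \ D) v) ∩ (univ \ X)).card : ℕ) : ℝ) ≤ (d : ℝ) := by
          push_cast
          linarith
        exact_mod_cast h5) (by
        intro v
        have h1 : nb G v \ (univ \ X) ⊆ nb G v ∩ X := by
          intro w hw
          obtain ⟨hw1, hw2⟩ := mem_sdiff.mp hw
          refine mem_inter.mpr ⟨hw1, ?_⟩
          by_contra hn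
          exact hw2 (mem_sdiff.mpr ⟨mem_univ _, hn⟩)
        have h2 : ((nb G v \ (univ \ X)).card : ℝ) ≤ ((nb G v ∩ X).card : ℝ) := by
          exact_mod_cast card_le_card h1
        have h3 := hXn v
        linarith) hCr hCo
    have hhit := ha2 i0 l w R θ hw hl hθ hR hlog
    obtain ⟨_, _, h3, h4, _⟩ := hDEP G (G \ D) d (univ \ X) (Hv η G d \ X) C hdD hEnv hCr
    have h6 := h3 UH 2 hUr
    have h7 : 99 * (d : ℝ) ≤ 100 * C.card := by exact_mod_cast h4
    have h8 : (C.card : ℝ) ≤ ((hit G θ R).card : ℝ) + ((C \ hit G θ R).card : ℝ) := by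
      have : C ⊆ hit G θ R ∪ (C \ hit G θ R) := by
        intro x hx
        by_cases h : x ∈ hit G θ R
        · exact mem_union_left _ h
        · exact mem_union_right _ (mem_sdiff.mpr ⟨hx, h⟩)
      exact_mod_cast le_trans (card_le_card this) (card_union_le _ _)
    have h9 : (((hit G θ R).filter (fun v => a v = i0)).card : ℝ) ≤
        ((C ∩ W).card : ℝ) + ((hit G θ R \ C).card : ℝ) + ((C ∩ UH).card : ℝ) := by
      have : (hit G θ R).filter (fun v => a v = i0) ⊆ (C ∩ W) ∪ (hit G θ R \ C) ∪ (C ∩ UH) := by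
        intro x hx
        obtain ⟨hx1, hx2⟩ := mem_filter.mp hx
        by_cases hxC : x ∈ C
        · by_cases hxU : x ∈ UH
          · exact mem_union_right _ (mem_inter.mpr ⟨hxC, hxU⟩)
          · exact mem_union_left _ (mem_union_left _
              (mem_inter.mpr ⟨hxC, (mW x).mpr ⟨hx2, hxU⟩⟩))
        · exact mem_union_left _ (mem_union_right _ (mem_sdiff.mpr ⟨hx1, hxC⟩))
      have h10 := le_trans (card_le_card this) (card_union_le _ _)
      have h11 := card_union_le (C ∩ W) (hit G θ R \ C)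
      have h12 : ((hit G θ R).filter (fun v => a v = i0)).card ≤
        (C ∩ W).card + (hit G θ R \ C).card + (C ∩ UH).card := by omega
      exact_mod_cast h12
    rw [hαe]
    exact numbersP M d C.card (hit G θ R).card ((hit G θ R).filter (fun v => a v = i0)).card
      (hit G θ R \ C).card (C \ hit G θ R).card (C ∩ UH).card (C ∩ W).card ε hM1 hdM hεM
      (Nat.cast_nonneg _) (Nat.cast_nonneg _) hhit hout hin h8 h9 h6 h7

end Pool.Agent.Work.MP_db9399_sc.helper43
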